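import Mathlib

/-!
# Beilinson regulators, projective bundles, blow-ups of projective spaces, alterations
-/

set_option autoImplicit false

namespace Pool.Agent.Q173.BR

universe u v

/-- A linear map of real vector spaces (a regulator in some degree and weight). -/
structure RMap where
  /-- the source (motivic cohomology) -/
  A : Type v
  /-- the target (Deligne cohomology) -/
  B : Type v
  /-- addition on the source -/
  gA : AddCommGroup A
  /-- scalars on the source -/
  mA : Module ℝ A
  /-- addition on the target -/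
  gB : AddCommGroup B
  /-- scalars on the target -/
  mB : Module ℝ B
  /-- the map -/
  f : A →ₗ[ℝ] B

namespace RMap

instance (r : RMap.{v}) : AddCommGroup r.A := r.gA
instance (r : RMap.{v}) : Module ℝ r.A := r.mA
instance (r : RMap.{v}) : AddCommGroup r.B := r.gB
instance (r : RMap.{v}) : Module ℝ r.B := r.mB

/-- The map is bijective. -/
def Bij (r : RMap.{v}) : Prop := Function.Bijective r.f

/-- The map sits in an exact sequence `0 → A → B → ℝ → 0`. -/
def Exact (r : RMap.{v}) : Prop :=
  Function.Injective r.f ∧ ∃ t : r.B →ₗ[ℝ] ℝ, Function.Surjective t ∧ t.ker = r.f.range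

/-- The image is contained in the kernel of a surjective map to `ℝ`. -/
def HasTrace (r : RMap.{v}) : Prop :=
  ∃ t : r.B →ₗ[ℝ] ℝ, Function.Surjective t ∧ ∀ x, t (r.f x) = 0

/-- The source and the target vanish. -/
def Zero (r : RMap.{v}) : Prop := Subsingleton r.A ∧ Subsingleton r.B

/-- The map `r` is isomorphic to the product of the maps `s i`. -/
def IsProd {ι : Type} (r : RMap.{v}) (s : ι → RMap.{v}) : Prop :=
  ∃ (a : r.A ≃ₗ[ℝ] (∀ i, (s i).A)) (b : r.B ≃ₗ[ℝ] (∀ i, (s i).B)),
    ∀ x i, b (r.f x) i = (s i).f (a x i)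

/-- The map `r` is a retract of the map `s`. -/
def IsRetract (r s : RMap.{v}) : Prop :=
  ∃ (a : r.A →ₗ[ℝ] s.A) (a' : s.A →ₗ[ℝ] r.A) (b : r.B →ₗ[ℝ] s.B) (b' : s.B →ₗ[ℝ] r.B),
    (∀ x, a' (a x) = x) ∧ (∀ x, b' (b x) = x) ∧ (∀ x, b (r.f x) = s.f (a x)) ∧
      (∀ x, b' (s.f x) = r.f (a' x))

/-- A retract of a bijective map is bijective. -/
theorem IsRetract.bij {r s : RMap.{v}} (h : r.IsRetract s) (hs : s.Bij) : r.Bij := by
  obtain ⟨a, a', b, b', h1, h2, h3, h4⟩ := h
  refine ⟨fun x y hxy => ?_, fun y => ?_⟩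
  · have : s.f (a x) = s.f (a y) := by rw [← h3, ← h3, hxy]
    have := hs.1 this
    rw [← h1 x, ← h1 y, this]
  · obtain ⟨z, hz⟩ := hs.2 (b y)
    exact ⟨a' z, by rw [← h4, hz, h2]⟩

/-- A retract of an exact sequence `0 → A → B → ℝ → 0`. -/
theorem IsRetract.exact {r s : RMap.{v}} (h : r.IsRetract s) (hs : s.Exact) (hf : r.HasTrace) :
    r.Exact := by
  obtain ⟨a, a', b, b', h1, h2, h3, h4⟩ := h
  obtain ⟨hi, t', ht', hk⟩ := hs
  obtain ⟨t, ht, h0⟩ := hf
  refine ⟨fun x y hxy => ?_, t, ht, ?_⟩
  · have : s.f (a x) = s.f (a y) := by rw [← h3, ← h3, hxy]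
    have := hi this
    rw [← h1 x, ← h1 y, this]
  · apply le_antisymm
    · intro y hy
      rw [LinearMap.mem_ker] at hy
      have key : ∀ z, t' (b z) = 0 → z ∈ r.f.range := by
        intro z hz
        have : b z ∈ s.f.range := by rw [← hk]; exact hz
        obtain ⟨w, hw⟩ := this
        exact ⟨a' w, by rw [← h4, hw, h2]⟩
      obtain ⟨e, he⟩ := ht 1
      by_cases hc : t' (b e) = 0
      · obtain ⟨w, hw⟩ := key e hc
        have := h0 w
        rw [hw, he] at this
        exact absurd this one_ne_zero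
      · have h5 : t' (b (y - (t' (b y) / t' (b e)) • e)) = 0 := by
          rw [map_sub, map_smul, map_sub, map_smul, smul_eq_mul, div_mul_cancel₀ _ hc, sub_self]
        obtain ⟨w, hw⟩ := key _ h5
        have h6 := h0 w
        rw [hw, map_sub, map_smul, hy, he, smul_eq_mul, mul_one, zero_sub, neg_eq_zero,
          div_eq_zero_iff] at h6
        rcases h6 with h6 | h6
        · exact key y h6
        · exact absurd h6 hc
    · rintro _ ⟨x, rfl⟩
      exact h0 x

/-- Bijectivity of a product. -/
theorem IsProd.bij_iff {ι : Type} {r : RMap.{v}} {s : ι → RMap.{v}} (h : r.IsProd s) :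
    r.Bij ↔ ∀ i, (s i).Bij := by
  classical
  obtain ⟨a, b, h⟩ := h
  have h1 : ∀ x, b (r.f x) = fun i => (s i).f (a x i) := fun x => funext (h x)
  constructor
  · intro hf i
    constructor
    · rw [injective_iff_map_eq_zero]
      intro x hx
      have h2 : r.f (a.symm (Pi.single i x)) = 0 := by
        apply b.injective
        rw [h1, map_zero]
        funext j
        rw [LinearEquiv.apply_symm_apply]
        by_cases hj : j = i
        · subst hj; simp [hx]
        · simp [Pi.single_eq_of_ne hj]
      have h3 : a.symm (Pi.single i x) = 0 := hf.1 (by rw [h2, map_zero])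
      have h4 : Pi.single i x = (0 : ∀ i, (s i).A) := by
        rw [← a.apply_symm_apply (Pi.single i x), h3, map_zero]
      have := congrFun h4 i
      simpa using this
    · intro y
      obtain ⟨x, hx⟩ := hf.2 (b.symm (Pi.single i y))
      refine ⟨a x i, ?_⟩
      rw [← h, hx]
      simp
  · intro hg
    constructor
    · rw [injective_iff_map_eq_zero]
      intro x hx
      have h2 : a x = 0 := by
        funext i
        apply (hg i).1
        rw [← h, hx]
        simp
      exact a.injective (by rw [h2, map_zero])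
    · intro y
      choose z hz using fun i => (hg i).2 (b y i)
      refine ⟨a.symm z, b.injective ?_⟩
      rw [h1]
      funext i
      rw [LinearEquiv.apply_symm_apply, hz]

/-- If all factors but one vanish, exactness may be checked on this factor. -/
theorem IsProd.exact_iff {ι : Type} {r : RMap.{v}} {s : ι → RMap.{v}} (h : r.IsProd s) (i₀ : ι)
    (hz : ∀ i, i ≠ i₀ → (s i).Zero) : r.Exact ↔ (s i₀).Exact := by
  classical
  obtain ⟨a, b, h⟩ := h
  -- the projections to the factor `i₀`
  let πA : (∀ i, (s i).A) ≃ₗ[ℝ] (s i₀).A := LinearEquiv.ofBijective (LinearMap.proj i₀)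
    ⟨fun x y hxy => by
      funext j
      by_cases hj : j = i₀
      · subst hj; exact hxy
      · have := (hz j hj).1; exact Subsingleton.elim _ _, fun y => ⟨Pi.single i₀ y, by simp⟩⟩
  let πB : (∀ i, (s i).B) ≃ₗ[ℝ] (s i₀).B := LinearEquiv.ofBijective (LinearMap.proj i₀)
    ⟨fun x y hxy => by
      funext j
      by_cases hj : j = i₀
      · subst hj; exact hxy
      · have := (hz j hj).2; exact Subsingleton.elim _ _, fun y => ⟨Pi.single i₀ y, by simp⟩⟩
  have hc : ∀ x, (b.trans πB) (r.f x) = (s i₀).f ((a.trans πA) x) := fun x => h x i₀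
  have gen : ∀ {p q : RMap.{v}} (a : p.A ≃ₗ[ℝ] q.A) (b : p.B ≃ₗ[ℝ] q.B),
      (∀ x, b (p.f x) = q.f (a x)) → q.Exact → p.Exact := by
    intro p q a b h hq
    obtain ⟨hi, t, ht, hk⟩ := hq
    refine ⟨fun x y hxy => ?_, t ∘ₗ b.toLinearMap, ?_, ?_⟩
    · have : q.f (a x) = q.f (a y) := by rw [← h, ← h, hxy]
      exact a.injective (hi this)
    · intro r
      obtain ⟨y, hy⟩ := ht r
      exact ⟨b.symm y, by simp [hy]⟩
    · ext y
      have h1 : y ∈ (t ∘ₗ b.toLinearMap).ker ↔ b y ∈ t.ker := by
        simp [LinearMap.mem_ker]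
      rw [h1, hk]
      constructor
      · rintro ⟨x, hx⟩
        refine ⟨a.symm x, b.injective ?_⟩
        rw [h]; simpa using hx
      · rintro ⟨x, rfl⟩
        exact ⟨a x, (h x).symm⟩
  constructor
  · intro hs
    refine gen (a.trans πA).symm (b.trans πB).symm (fun x => ?_) hs
    apply (b.trans πB).injective
    rw [LinearEquiv.apply_symm_apply, hc, LinearEquiv.apply_symm_apply]
  · intro hs
    exact gen (a.trans πA) (b.trans πB) hc hs

end RMap

/-- The Beilinson regulators for a class of schemes `X` with a generic fibre of dimension `dim X`. -/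
structure Theory (V : Type u) where
  /-- the dimension of the generic fibre -/
  dim : V → ℕ
  /-- the regulator from integral motivic cohomology to real Deligne cohomology, of degree `p` and
  weight `n` -/
  reg : ℤ → ℤ → V → RMap.{v}
  /-- the product with the projective space of dimension `m` -/
  P : V → ℕ → V
  /-- the scheme `Spec ℤ` -/
  pt : V
  /-- `IsBl N X Y`: `Y` is the blow-up of the projective space of dimension `N` over `ℤ` along the
  union of pairwise disjoint closed subschemes, of codimension at least two, isomorphic to the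
  `X i` -/
  IsBl : ℕ → ∀ {k : ℕ}, (Fin k → V) → V → Prop
  /-- there is a surjective morphism from the first to the second scheme -/
  Dom : V → V → Prop

namespace Theory

variable {V : Type u} (T : Theory.{u, v} V)

/-- Beilinson's conjecture Q1 for `X`: part (a) in the degrees `2 d - 1 - i`, `i ≥ 1`, `d = dim X + 1`,
and part (b) in the degree `2 d - 1`, in the weight `d`. -/
def Conj (X : V) : Prop :=
  (∀ i : ℕ, 1 ≤ i → (T.reg (2 * (T.dim X + 1) - 1 - i) (T.dim X + 1) X).Bij) ∧
    (T.reg (2 * (T.dim X + 1) - 1) (T.dim X + 1) X).Exact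

/-- Beilinson's conjecture for the weight `n`: the regulators are bijective in all degrees. -/
def All (n : ℤ) (X : V) : Prop := ∀ p, (T.reg p n X).Bij

/-- The projective bundle formula. -/
def BundleFormula : Prop := ∀ X m (p n : ℤ), (T.reg p n (T.P X m)).IsProd
  (fun j : Fin (m + 1) => T.reg (p - 2 * (j : ℕ)) (n - (j : ℕ)) X)

/-- The blow-up formula: the contribution of projective space is the factor `none`. -/
def BlowUpFormula : Prop :=
  ∀ {k : ℕ} (X : Fin k → V) N Y, T.IsBl N X Y → ∀ p n : ℤ, (T.reg p n Y).IsProd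
    (fun o : Option ((i : Fin k) × Fin (N - T.dim (X i) - 1)) => match o with
      | none => T.reg p n (T.P T.pt N)
      | some x => T.reg (p - 2 * ((x.2 : ℕ) + 1)) (n - ((x.2 : ℕ) + 1)) (X x.1))

/-- The known properties. -/
structure Known : Prop where
  /-- the product formula -/
  trace : ∀ X, (T.reg (2 * (T.dim X + 1) - 1) (T.dim X + 1) X).HasTrace
  /-- vanishing in the degrees `≥ 2 n - 1` and the weights `n ≥ dim X + 2` -/
  van : ∀ X (p n : ℤ), (T.dim X + 2 : ℤ) ≤ n → 2 * n - 1 ≤ p → (T.reg p n X).Zero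
  /-- dimension of projective bundles -/
  dimP : ∀ X m, T.dim (T.P X m) = T.dim X + m
  /-- cohomology of projective bundles -/
  bundle : T.BundleFormula
  /-- the generic fibre of `Spec ℤ` -/
  dimpt : T.dim T.pt = 0
  /-- Borel's theorem -/
  borel : T.Conj T.pt ∧ ∀ n : ℤ, 2 ≤ n → T.All n T.pt
  /-- disjoint unions of projective schemes are closed subschemes of projective spaces -/
  embed : ∀ {k : ℕ} (X : Fin k → V), ∃ B : ℕ, ∀ N, B ≤ N → ∃ Y, T.IsBl N X Y
  /-- dimension of blow-ups -/
  dimBl : ∀ {k : ℕ} (X : Fin k → V) N Y, T.IsBl N X Y → T.dim Y = N ∧ ∀ i, T.dim (X i) + 2 ≤ N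
  /-- cohomology of blow-ups -/
  blow : T.BlowUpFormula
  /-- regular alterations of products -/
  alter : ∀ X₁ X₂, ∃ Y, T.Dom Y X₁ ∧ T.Dom Y X₂
  /-- surjective morphisms are transitive -/
  domTrans : ∀ X₁ X₂ X₃, T.Dom X₁ X₂ → T.Dom X₂ X₃ → T.Dom X₁ X₃
  /-- surjective morphisms of relative dimension `r`: pull-back, product with the class of a
  multisection, push-forward -/
  retract : ∀ Y X, T.Dom Y X → ∃ r : ℕ, T.dim Y = T.dim X + r ∧
    ∀ p n : ℤ, (T.reg p n X).IsRetract (T.reg (p + 2 * r) (n + r) Y)

end Theory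

end Pool.Agent.Q173.BR
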