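import Pool.Agent.Q173.BR.Core

/-!
# Beilinson's conjecture for projective bundles, blow-ups and alterations
-/

set_option autoImplicit false

namespace Pool.Agent.Q173.BR

universe u v

namespace Theory

variable {V : Type u} {T : Theory.{u, v} V}

theorem bundle_bij (hT : T.Known) (X : V) (m : ℕ) (p n : ℤ) :
    (T.reg p n (T.P X m)).Bij ↔ ∀ j : ℕ, j ≤ m → (T.reg (p - 2 * j) (n - j) X).Bij :=
  (hT.bundle X m p n).bij_iff.trans
    ⟨fun h2 j hj => h2 ⟨j, by omega⟩, fun h2 j => h2 j (by omega)⟩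

/-- In the weights `≥ dim X + 2` the degrees `≤ 2 n - 2` suffice. -/
theorem all_iff (hT : T.Known) {X : V} {n : ℤ} (hn : (T.dim X + 2 : ℤ) ≤ n) :
    T.All n X ↔ ∀ p, p ≤ 2 * n - 2 → (T.reg p n X).Bij := by
  refine ⟨fun h p _ => h p, fun h p => ?_⟩
  by_cases hp : p ≤ 2 * n - 2
  · exact h p hp
  · have := (hT.van X p n hn (by omega)).1
    have := (hT.van X p n hn (by omega)).2
    exact ⟨fun _ _ _ => Subsingleton.elim _ _, fun y => ⟨0, Subsingleton.elim _ _⟩⟩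

theorem conj_a_iff {X : V} : (∀ i : ℕ, 1 ≤ i → (T.reg (2 * (T.dim X + 1) - 1 - i)
    (T.dim X + 1) X).Bij) ↔ ∀ p : ℤ, p ≤ 2 * T.dim X → (T.reg p (T.dim X + 1) X).Bij := by
  constructor
  · intro h p hp
    obtain ⟨i, hi⟩ : ∃ i : ℕ, (i : ℤ) = 2 * (T.dim X + 1 : ℤ) - 1 - p :=
      ⟨(2 * (T.dim X + 1 : ℤ) - 1 - p).toNat, by omega⟩
    have h1 := h i (by omega)
    have h2 : 2 * (T.dim X + 1 : ℤ) - 1 - i = p := by omega
    rwa [h2] at h1
  · intro h i hi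
    exact h _ (by omega)

theorem seq_bundle (hT : T.Known) (X : V) (m : ℕ) :
    (T.reg (2 * (T.dim (T.P X m) + 1) - 1) (T.dim (T.P X m) + 1) (T.P X m)).Exact ↔
      (T.reg (2 * (T.dim X + 1) - 1) (T.dim X + 1) X).Exact := by
  have hd : (T.dim (T.P X m) : ℤ) = T.dim X + m := by rw [hT.dimP]; push_cast; rfl
  rw [hd, (hT.bundle X m _ _).exact_iff (Fin.last m)]
  · have e1 : (2 * (T.dim X + m + 1 : ℤ) - 1) - 2 * ((Fin.last m : Fin (m + 1)) : ℕ) =
      2 * (T.dim X + 1 : ℤ) - 1 := by simp; ring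
    have e2 : (T.dim X + m + 1 : ℤ) - ((Fin.last m : Fin (m + 1)) : ℕ) = (T.dim X + 1 : ℤ) := by
      simp; ring
    rw [e1, e2]
  · intro j hj
    have : (j : ℕ) < m := by
      have := Fin.val_lt_last hj; simpa using this
    exact hT.van X _ _ (by omega) (by omega)

/-- **Projective bundles.** -/
theorem conj_bundle (hT : T.Known) (X : V) (m : ℕ) : T.Conj (T.P X m) ↔
    T.Conj X ∧ ∀ n : ℕ, T.dim X + 2 ≤ n → n ≤ T.dim X + 1 + m → T.All n X := by
  have hd : (T.dim (T.P X m) : ℤ) = T.dim X + m := by rw [hT.dimP]; push_cast; rfl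
  unfold Conj
  rw [conj_a_iff, conj_a_iff, seq_bundle hT]
  have h1 : (∀ p : ℤ, p ≤ 2 * T.dim (T.P X m) → (T.reg p (T.dim (T.P X m) + 1) (T.P X m)).Bij) ↔
      (∀ p : ℤ, p ≤ 2 * T.dim X → (T.reg p (T.dim X + 1) X).Bij) ∧
      ∀ n : ℕ, T.dim X + 2 ≤ n → n ≤ T.dim X + 1 + m → T.All n X := by
    constructor
    · intro h
      refine ⟨fun p hp => ?_, fun n h1 h2 => (all_iff hT (by omega)).2 fun p hp => ?_⟩
      · have h3 := (bundle_bij hT X m _ _).1 (h (p + 2 * m) (by omega)) m le_rfl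
        rw [hd] at h3
        have e1 : p + 2 * m - 2 * m = p := by ring
        have e2 : (T.dim X + m + 1 - m : ℤ) = T.dim X + 1 := by ring
        rwa [e1, e2] at h3
      · obtain ⟨j, hj⟩ : ∃ j : ℕ, T.dim X + m + 1 = n + j := ⟨T.dim X + m + 1 - n, by omega⟩
        have h3 := (bundle_bij hT X m _ _).1 (h (p + 2 * j) (by omega)) j (by omega)
        rw [hd] at h3
        have e1 : p + 2 * j - 2 * j = p := by ring
        have e2 : (T.dim X + m + 1 - j : ℤ) = n := by omega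
        rwa [e1, e2] at h3
    · rintro ⟨h1, h2⟩ p hp
      rw [hd] at hp ⊢
      rw [bundle_bij hT]
      intro j hj
      by_cases hjm : j = m
      · subst hjm
        have e2 : (T.dim X + j + 1 - j : ℤ) = T.dim X + 1 := by ring
        rw [e2]
        exact h1 _ (by omega)
      · have h3 := h2 (T.dim X + m + 1 - j) (by omega) (by omega)
        have e2 : ((T.dim X + m + 1 - j : ℕ) : ℤ) = (T.dim X + m + 1 - j : ℤ) := by omega
        rw [e2] at h3
        exact h3 _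
  rw [h1]
  tauto

theorem blow_bij (hT : T.Known) {k N : ℕ} {X : Fin k → V} {Y : V} (hY : T.IsBl N X Y) (p n : ℤ) :
    (T.reg p n Y).Bij ↔ (T.reg p n (T.P T.pt N)).Bij ∧ ∀ i (j : ℕ), j + 1 + T.dim (X i) < N →
      (T.reg (p - 2 * (j + 1)) (n - (j + 1)) (X i)).Bij := by
  rw [(hT.blow X N Y hY p n).bij_iff]
  constructor
  · intro h
    exact ⟨h none, fun i j hj => h (some ⟨i, ⟨j, by omega⟩⟩)⟩
  · rintro ⟨h1, h2⟩ (_ | ⟨i, j⟩)
    · exact h1
    · exact h2 i j (by omega)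

/-- Projective spaces. -/
theorem conj_space (hT : T.Known) (N : ℕ) : T.Conj (T.P T.pt N) := by
  rw [conj_bundle hT]
  refine ⟨hT.borel.1, fun n h1 _ => hT.borel.2 _ ?_⟩
  rw [hT.dimpt] at h1
  exact_mod_cast h1

theorem seq_blow (hT : T.Known) {k N : ℕ} {X : Fin k → V} {Y : V} (hY : T.IsBl N X Y) :
    (T.reg (2 * (T.dim Y + 1) - 1) (T.dim Y + 1) Y).Exact := by
  obtain ⟨hdY, hN⟩ := hT.dimBl X N Y hY
  have hd : (T.dim (T.P T.pt N) : ℤ) = N := by rw [hT.dimP, hT.dimpt]; simp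
  have hs := (conj_space hT N).2
  rw [hd] at hs
  rw [hdY, (hT.blow X N Y hY _ _).exact_iff none]
  · exact hs
  · rintro (_ | ⟨i, j⟩) hj
    · exact absurd rfl hj
    · have := hN i
      exact hT.van _ _ _ (by simp only; omega) (by simp only; omega)

/-- **Blow-ups of projective spaces.** -/
theorem conj_blow (hT : T.Known) {k N : ℕ} {X : Fin k → V} {Y : V} (hY : T.IsBl N X Y) :
    T.Conj Y ↔ ∀ i (n : ℕ), T.dim (X i) + 2 ≤ n → n ≤ N → T.All n (X i) := by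
  obtain ⟨hdY, hN⟩ := hT.dimBl X N Y hY
  have hd : (T.dim (T.P T.pt N) : ℤ) = N := by rw [hT.dimP, hT.dimpt]; simp
  have h0 := (conj_a_iff (T := T)).1 (conj_space hT N).1
  rw [hd] at h0
  unfold Conj
  rw [conj_a_iff, and_iff_left (seq_blow hT hY), hdY]
  constructor
  · intro h i n h1 h2
    refine (all_iff hT (by omega)).2 fun p hp => ?_
    obtain ⟨j, hj⟩ : ∃ j : ℕ, N = n + j := ⟨N - n, by omega⟩
    have h3 := ((blow_bij hT hY _ _).1 (h (p + 2 * (j + 1)) (by omega))).2 i j (by omega)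
    have e1 : p + 2 * ((j : ℤ) + 1) - 2 * (j + 1) = p := by ring
    have e2 : (N + 1 - (j + 1) : ℤ) = n := by omega
    rwa [e1, e2] at h3
  · intro h p hp
    rw [blow_bij hT hY]
    refine ⟨h0 p hp, fun i j hj => ?_⟩
    have h3 := h i (N - j) (by omega) (by omega)
    have e2 : ((N - j : ℕ) : ℤ) = (N + 1 - (j + 1) : ℤ) := by omega
    rw [e2] at h3
    exact h3 _

/-- **Surjective morphisms.** -/
theorem conj_dom (hT : T.Known) {X Y : V} (h : T.Dom Y X) (hY : T.Conj Y) : T.Conj X := by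
  obtain ⟨r, hd, hr⟩ := hT.retract Y X h
  have e2 : (T.dim Y + 1 : ℤ) = (T.dim X + 1 + r : ℤ) := by omega
  refine ⟨conj_a_iff.2 fun p hp => ?_, ?_⟩
  · refine (hr p (T.dim X + 1)).bij ?_
    have h5 := conj_a_iff.1 hY.1 (p + 2 * r) (by omega)
    rwa [e2] at h5
  · refine (hr (2 * (T.dim X + 1) - 1) (T.dim X + 1)).exact ?_ (hT.trace X)
    have h5 := hY.2
    have e3 : 2 * (T.dim Y + 1 : ℤ) - 1 = (2 * (T.dim X + 1 : ℤ) - 1 + 2 * r : ℤ) := by omega
    rwa [e3, e2] at h5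

/-- Countably many schemes are dominated by the members of a sequence. -/
theorem exists_seq_dom (hT : T.Known) (f : ℕ → V) :
    ∃ Z : ℕ → V, ∀ i k, i ≤ k → T.Dom (Z k) (f i) := by
  choose g hg using hT.alter
  let Z : ℕ → V := fun k => Nat.rec (g (f 0) (f 0)) (fun k z => g z (f (k + 1))) k
  refine ⟨Z, fun i k => ?_⟩
  induction k with
  | zero =>
    intro hi
    obtain rfl : i = 0 := by omega
    exact (hg (f 0) (f 0)).1
  | succ k ih =>
    intro hi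
    rcases Nat.lt_or_ge k i with h | h
    · obtain rfl : i = k + 1 := by omega
      exact (hg (Z k) (f (k + 1))).2
    · exact hT.domTrans _ _ _ (hg (Z k) (f (k + 1))).1 (ih h)

/-- **Main theorem.** -/
theorem main (hT : T.Known) [Countable V] :
    (∀ X m, T.Conj (T.P X m) ↔
      T.Conj X ∧ ∀ n : ℕ, T.dim X + 2 ≤ n → n ≤ T.dim X + 1 + m → T.All n X) ∧
    (∀ {k N : ℕ} (X : Fin k → V) (Y : V), T.IsBl N X Y →
      (T.Conj Y ↔ ∀ i (n : ℕ), T.dim (X i) + 2 ≤ n → n ≤ N → T.All n (X i))) ∧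
    (∃ Y : ℕ → V, (∀ k, ∃ (r N : ℕ) (X : Fin r → V), T.IsBl N X (Y k)) ∧
      ∀ S : Set ℕ, S.Infinite →
        ((∀ k ∈ S, T.Conj (Y k)) ↔ ∀ X (n : ℕ), T.dim X + 2 ≤ n → T.All n X)) ∧
    (∃ Z : ℕ → V, ∀ S : Set ℕ, S.Infinite → ((∀ k ∈ S, T.Conj (Z k)) ↔ ∀ X, T.Conj X)) ∧
    ((∀ X, T.Conj X) ↔ ∀ X, T.Conj X ∧ ∀ n : ℕ, T.dim X + 2 ≤ n → T.All n X) := by
  have : Nonempty V := ⟨T.pt⟩
  obtain ⟨f, hf⟩ := exists_surjective_nat V
  refine ⟨fun X m => conj_bundle hT X m, fun X Y h => conj_blow hT h, ?_, ?_, ?_⟩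
  · choose B hB using fun k : ℕ => hT.embed (fun i : Fin (k + 1) => f i)
    choose Y hY using fun k : ℕ => hB k (max (B k) k) (le_max_left _ _)
    refine ⟨Y, fun k => ⟨_, _, _, hY k⟩, fun S hS => ⟨fun h X n hn => ?_, fun h k _ => ?_⟩⟩
    · obtain ⟨i, rfl⟩ := hf X
      obtain ⟨k, hk, hik⟩ := hS.exists_gt (max i n)
      have h1 := (conj_blow hT (hY k)).1 (h k hk) ⟨i, by omega⟩ n hn (by omega)
      exact h1
    · exact (conj_blow hT (hY k)).2 fun i n hn _ => h _ n hn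
  · obtain ⟨Z, hZ⟩ := exists_seq_dom hT f
    refine ⟨Z, fun S hS => ⟨fun h X => ?_, fun h k _ => h _⟩⟩
    obtain ⟨i, rfl⟩ := hf X
    obtain ⟨k, hk, hik⟩ := hS.exists_gt i
    exact conj_dom hT (hZ i k hik.le) (h k hk)
  · refine ⟨fun h X => ⟨h X, fun n hn => ?_⟩, fun h X => (h X).1⟩
    exact ((conj_bundle hT X n).1 (h _)).2 n hn (by omega)

end Theory

end Pool.Agent.Q173.BR
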